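import Mathlib

/-!
# Starshapedness from clear visibility of locally non-convex points in `ℝ^d`

For every `d`, a compact connected set `E` in `ℝ^d` is starshaped as soon as any `d + 1` points of
local non-convexity (LNC points) of `E` are clearly visible from one common point of `E`.

Proof. For an LNC point `x` let `K_x` be the set of the points of `E` from which `x` is clearly
visible.

*A common point.* The LNC points form a compact set, and the points that are clearly visible from
a given `y` form an open set. So finitely many points `Z` of `E` are enough for all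
`(d + 1)`-tuples of LNC points. Helly's theorem for the (finitely many) polytopes
`conv (K_x ∩ Z)` gives a point `y` in all of them.

*Near an LNC point `E` is starshaped towards `y`*, as the set of the points towards which `E ∩ B`
is starshaped inside the ball `B` is convex.

*`y` lies in `E`.* Otherwise let `p` be a point of `E` nearest to `y` and `l` the linear functional
`⟨· - p, y - p⟩`. Every LNC point is clearly visible from a point of `E` with `l > 0`. Hence, for
each `c < 0`, two points of `E` near a given point and above level `c` are connected above level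
`c`, and a separation of `E ∩ {l ≥ 0}` can be continued downwards to a separation of `E`. So
`E ∩ {l ≥ 0}` is connected. But the points `q` of `E` with `l q = 0` near which `l ≤ 0` on `E`
form a nonempty subset of `E ∩ {l ≥ 0}` which is open and closed in it. So `l ≤ 0` on `E`, and `y`
is not in the convex hull of `E`.

*`y` sees all of `E`.* The set of the points of `E` seen from `y` is closed, and open in `E`.
-/

set_option autoImplicit false

namespace Pool.Agent.Results.MP_ad2f8c_co.ClearVisibility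

open Set Metric Filter Topology

section Defs

variable {V : Type*} [NormedAddCommGroup V] [InnerProductSpace ℝ V]

/-- `y` sees `x` in `E`: the closed segment `[y, x]` is contained in `E`. -/
def Sees (E : Set V) (y x : V) : Prop := segment ℝ y x ⊆ E

/-- `E` is starshaped: some point of `E` sees every point of `E`. -/
def Starshaped (E : Set V) : Prop := ∃ y ∈ E, ∀ x ∈ E, Sees E y x

/-- `x` is a locally non-convex (LNC) point of `E`: it is a boundary point of `E` and no
ball centred at `x` meets `E` in a convex set. -/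
def LNC (E : Set V) (x : V) : Prop :=
  x ∈ E ∧ x ∈ frontier E ∧ ∀ r : ℝ, 0 < r → ¬ Convex ℝ (ball x r ∩ E)

/-- `x` is clearly visible from `y` in `E`: for some `r > 0` the point `y` sees every point of
`B_r(x) ∩ E`. -/
def ClearlyVisible (E : Set V) (x y : V) : Prop :=
  ∃ r : ℝ, 0 < r ∧ ∀ z ∈ ball x r ∩ E, Sees E y z

/-- Property `C_n`: any `n` LNC points of `E`, not necessarily distinct, are all clearly visible
from one point of `E`. -/
def PropertyC (n : ℕ) (E : Set V) : Prop :=
  ∀ x : Fin n → V, (∀ i, LNC E (x i)) → ∃ y ∈ E, ∀ i, ClearlyVisible E (x i) y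

end Defs

section Star

variable {V : Type*} [NormedAddCommGroup V] [InnerProductSpace ℝ V]

/-- The points towards which the part of `E` in the ball is starshaped. -/
def StarAt (E : Set V) (x : V) (r : ℝ) : Set V :=
  {z | ∀ p ∈ ball x r ∩ E, ∀ t ∈ Icc (0 : ℝ) 1, p + t • (z - p) ∈ ball x r →
    p + t • (z - p) ∈ E}

theorem StarAt.mono {E : Set V} {x : V} {r s : ℝ} (h : s ≤ r) : StarAt E x r ⊆ StarAt E x s := by
  intro z hz p hp t ht hb
  exact hz p ⟨ball_subset_ball h hp.1, hp.2⟩ t ht (ball_subset_ball h hb)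

theorem convex_starAt {E : Set V} (hE : IsClosed E) (x : V) (r : ℝ) :
    Convex ℝ (StarAt E x r) := by
  intro z1 h1 z2 h2 a b ha hb hab p hp t ht hq
  set z : V := a • z1 + b • z2 with hz
  -- the closed set of good parameters
  let S : Set ℝ := {s | p + s • (z - p) ∈ E}
  have hSc : IsClosed S := hE.preimage (by fun_prop)
  have h0 : (0 : ℝ) ∈ S := by simpa [S] using hp.2
  have hball : ∀ s ∈ Icc (0 : ℝ) t, p + s • (z - p) ∈ ball x r := by
    intro s hs
    rcases eq_or_lt_of_le ht.1 with h | h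
    · have : s = 0 := le_antisymm (by rw [h]; exact hs.2) hs.1
      subst this
      simpa using hp.1
    · have hconv := convex_ball x r
      have := hconv hp.1 hq (a := 1 - s / t) (b := s / t)
        (by rw [sub_nonneg]; exact div_le_one_of_le₀ hs.2 ht.1) (div_nonneg hs.1 ht.1) (by ring)
      convert this using 1
      have ht0 : t ≠ 0 := h.ne'
      rw [smul_add, smul_smul, div_mul_cancel₀ _ ht0, ← add_assoc, ← add_smul]
      simp
  have key : Icc 0 t ⊆ S := by
    refine IsClosed.Icc_subset_of_forall_mem_nhdsWithin (hSc.inter isClosed_Icc) h0 ?_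
    rintro s ⟨hsS, hs0, hst⟩
    have hs1 : s < 1 := lt_of_lt_of_le hst ht.2
    set p' : V := p + s • (z - p) with hp'
    have hp'b : p' ∈ ball x r := hball s ⟨hs0, hst.le⟩
    have hp'E : p' ∈ E := hsS
    -- parameters close to `s`
    let τ : ℝ → ℝ := fun u => (u - s) / (1 - s)
    have hτc : ContinuousAt τ s := by
      have : (1 - s) ≠ 0 := by linarith
      fun_prop
    have hτ0 : τ s = 0 := by simp [τ]
    let σ : ℝ → ℝ := fun u => τ u * a / (1 - τ u * b)
    have hσc : ContinuousAt σ s := by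
      have : (1 - τ s * b) ≠ 0 := by rw [hτ0]; simp
      fun_prop (disch := assumption)
    have hσ0 : σ s = 0 := by simp [σ, hτ0]
    have e1 : ∀ᶠ u in 𝓝 s, τ u < 1 / 2 := by
      have : Tendsto τ (𝓝 s) (𝓝 0) := by simpa [hτ0] using hτc.tendsto
      exact this.eventually (gt_mem_nhds (by norm_num))
    have e2 : ∀ᶠ u in 𝓝 s, p' + σ u • (z1 - p') ∈ ball x r := by
      have hc : ContinuousAt (fun u => p' + σ u • (z1 - p')) s := by fun_prop
      have : p' + σ s • (z1 - p') ∈ ball x r := by simpa [hσ0] using hp'b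
      exact hc.eventually (isOpen_ball.mem_nhds this)
    have e3 : ∀ᶠ u in 𝓝 s, p' + τ u • (z - p') ∈ ball x r := by
      have hc : ContinuousAt (fun u => p' + τ u • (z - p')) s := by fun_prop
      have : p' + τ s • (z - p') ∈ ball x r := by simpa [hτ0] using hp'b
      exact hc.eventually (isOpen_ball.mem_nhds this)
    have e4 : ∀ᶠ u in 𝓝[>] s, s < u := self_mem_nhdsWithin
    filter_upwards [e4, nhdsWithin_le_nhds e1, nhdsWithin_le_nhds e2, nhdsWithin_le_nhds e3]
      with u hu h1' h2' h3'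
    have h1s : 0 < 1 - s := by linarith
    have hτpos : 0 < τ u := div_pos (by linarith) h1s
    have hb1 : b ≤ 1 := by linarith
    have hden : 0 < 1 - τ u * b := by nlinarith
    have hσnn : 0 ≤ σ u := div_nonneg (mul_nonneg hτpos.le ha) hden.le
    have hσ1 : σ u ≤ 1 := by
      rw [div_le_one hden]
      nlinarith
    have hp1E : p' + σ u • (z1 - p') ∈ E := h1 p' ⟨hp'b, hp'E⟩ (σ u) ⟨hσnn, hσ1⟩ h2'
    have htb : τ u * b ∈ Icc (0 : ℝ) 1 := ⟨mul_nonneg hτpos.le hb, by nlinarith⟩
    have hid : (p' + σ u • (z1 - p')) + (τ u * b) • (z2 - (p' + σ u • (z1 - p')))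
        = p' + τ u • (z - p') := by
      have hσd : σ u * (1 - τ u * b) = τ u * a := by
        simp only [σ]; field_simp
      have hbe : b = 1 - a := by linarith
      have e : (p' + σ u • (z1 - p')) + (τ u * b) • (z2 - (p' + σ u • (z1 - p')))
          = p' + (σ u * (1 - τ u * b)) • (z1 - p') + (τ u * b) • (z2 - p') := by
        module
      rw [e, hσd, hz, hbe]
      module
    have hp2E := h2 (p' + σ u • (z1 - p')) ⟨h2', hp1E⟩ (τ u * b) htb (by rw [hid]; exact h3')
    rw [hid] at hp2E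
    have hfin : p' + τ u • (z - p') = p + u • (z - p) := by
      have hτs : τ u * (1 - s) = u - s := by simp only [τ]; field_simp
      have : u = s + τ u * (1 - s) := by linarith
      rw [hp']
      conv_rhs => rw [this]
      module
    rw [hfin] at hp2E
    exact hp2E
  exact key ⟨ht.1, le_rfl⟩

theorem subset_starAt {E : Set V} {x z : V} {r : ℝ} (h : ∀ p ∈ ball x r ∩ E, Sees E z p) :
    z ∈ StarAt E x r := by
  intro p hp t ht _
  apply h p hp
  rw [segment_symm]
  refine ⟨1 - t, t, by linarith [ht.2], ht.1, by ring, ?_⟩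
  module

/-- If `y` is in the convex hull of points from which `x` is clearly visible, then near `x` the
set `E` is starshaped towards `y`. -/
theorem exists_starAt {E : Set V} (hE : IsClosed E) {x y : V} {Z : Set V}
    (hZ : ∀ z ∈ Z, ClearlyVisible E x z) (hy : y ∈ convexHull ℝ Z) :
    ∃ r : ℝ, 0 < r ∧ y ∈ StarAt E x r := by
  have hconv : Convex ℝ {z | ∃ r : ℝ, 0 < r ∧ z ∈ StarAt E x r} := by
    rintro z1 ⟨r1, hr1, h1⟩ z2 ⟨r2, hr2, h2⟩ a b ha hb hab
    refine ⟨min r1 r2, lt_min hr1 hr2, ?_⟩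
    exact convex_starAt hE x _ (StarAt.mono (min_le_left _ _) h1)
      (StarAt.mono (min_le_right _ _) h2) ha hb hab
  have hsub : Z ⊆ {z | ∃ r : ℝ, 0 < r ∧ z ∈ StarAt E x r} := by
    intro z hz
    obtain ⟨r, hr, h⟩ := hZ z hz
    exact ⟨r, hr, subset_starAt h⟩
  exact convexHull_min hsub hconv hy

end Star

section Kernel

variable {V : Type*} [NormedAddCommGroup V] [InnerProductSpace ℝ V]

theorem exists_convex_of_not_lnc {E : Set V} {x : V} (hx : x ∈ E) (h : ¬ LNC E x) :
    ∃ r : ℝ, 0 < r ∧ Convex ℝ (ball x r ∩ E) := by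
  by_contra hcon
  push Not at hcon
  apply h
  refine ⟨hx, ?_, hcon⟩
  by_contra hf
  have hint : x ∈ interior E := by
    by_contra hi
    exact hf ⟨subset_closure hx, hi⟩
  obtain ⟨r, hr, hb⟩ := Metric.isOpen_iff.1 isOpen_interior x hint
  apply hcon r hr
  rw [inter_eq_left.2 (hb.trans interior_subset)]
  exact convex_ball x r

/-- The points seen from `y`, in terms of a parameter. -/
def Vis (E : Set V) (y : V) : Set V := {x | ∀ t ∈ Icc (0 : ℝ) 1, y + t • (x - y) ∈ E}

theorem sees_iff {E : Set V} {y x : V} : Sees E y x ↔ x ∈ Vis E y := by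
  unfold Sees Vis
  rw [segment_eq_image']
  simp only [image_subset_iff]
  rfl

theorem isClosed_vis {E : Set V} (hE : IsClosed E) (y : V) : IsClosed (Vis E y) := by
  have : Vis E y = ⋂ t ∈ Icc (0 : ℝ) 1, {x | y + t • (x - y) ∈ E} := by
    ext x; simp [Vis]
  rw [this]
  exact isClosed_biInter fun t _ => hE.preimage (by fun_prop)

theorem vis_subset {E : Set V} {y : V} : Vis E y ⊆ E := by
  intro x hx
  have := hx 1 ⟨zero_le_one, le_rfl⟩
  simpa using this

theorem vis_star {E : Set V} {y x : V} (hx : x ∈ Vis E y) {k : ℝ} (h0 : 0 ≤ k) (h1 : k ≤ 1) :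
    y + k • (x - y) ∈ Vis E y := by
  intro t ht
  have := hx (t * k) ⟨mul_nonneg ht.1 h0, mul_le_one₀ ht.2 h0 h1⟩
  convert this using 1
  module

/-- One step towards the boundary of the visible region. -/
theorem vis_step {E : Set V} (hE : IsClosed E) {y z : V} {r : ℝ} (hr : 0 < r)
    (hz : z ∈ Vis E y)
    (hloc : y ∈ StarAt E z r ∨ Convex ℝ (ball z r ∩ E))
    (hpre : ∀ l ∈ Ioo (0 : ℝ) 1, ∃ ρ : ℝ, 0 < ρ ∧ ball (z + l • (y - z)) ρ ∩ E ⊆ Vis E y) :
    ∃ ρ : ℝ, 0 < ρ ∧ ball z ρ ∩ E ⊆ Vis E y := by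
  obtain ⟨l, hl0, hl1, hlr⟩ : ∃ l : ℝ, 0 < l ∧ l < 1 ∧ l * ‖y - z‖ < r / 2 := by
    refine ⟨min (1 / 2) (r / (4 * (‖y - z‖ + 1))), ?_, ?_, ?_⟩
    · have := norm_nonneg (y - z)
      exact lt_min (by norm_num) (by positivity)
    · exact lt_of_le_of_lt (min_le_left _ _) (by norm_num)
    · have hn := norm_nonneg (y - z)
      have h1 : min (1 / 2) (r / (4 * (‖y - z‖ + 1))) * ‖y - z‖
          ≤ r / (4 * (‖y - z‖ + 1)) * ‖y - z‖ :=
        mul_le_mul_of_nonneg_right (min_le_right _ _) hn
      refine lt_of_le_of_lt h1 ?_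
      rw [div_mul_eq_mul_div, div_lt_div_iff₀ (by positivity) (by norm_num)]
      nlinarith
  set z' : V := z + l • (y - z) with hz'
  obtain ⟨ρ, hρ, hρV⟩ := hpre l ⟨hl0, hl1⟩
  have hz'z : ‖z' - z‖ < r / 2 := by
    rw [hz']
    simp only [add_sub_cancel_left, norm_smul, Real.norm_eq_abs, abs_of_pos hl0]
    exact hlr
  refine ⟨min ρ (r / 2), lt_min hρ (by linarith), ?_⟩
  rintro q ⟨hqb, hqE⟩
  rw [mem_ball, dist_eq_norm] at hqb
  have hq1 : ‖q - z‖ < ρ := lt_of_lt_of_le hqb (min_le_left _ _)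
  have hq2 : ‖q - z‖ < r / 2 := lt_of_lt_of_le hqb (min_le_right _ _)
  set q' : V := q + l • (y - q) with hq'
  have hq'z' : q' - z' = (1 - l) • (q - z) := by rw [hq', hz']; module
  have hq'n : ‖q' - z'‖ ≤ ‖q - z‖ := by
    rw [hq'z', norm_smul, Real.norm_eq_abs, abs_of_pos (by linarith)]
    have := norm_nonneg (q - z)
    nlinarith
  have hqb' : q ∈ ball z r := by
    rw [mem_ball, dist_eq_norm]; linarith
  have hq'b : q' ∈ ball z r := by
    rw [mem_ball, dist_eq_norm]
    have : q' - z = (q' - z') + (z' - z) := by abel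
    rw [this]
    exact lt_of_le_of_lt (norm_add_le _ _) (by linarith)
  have hq'ball : q' ∈ ball z' ρ := by
    rw [mem_ball, dist_eq_norm]; linarith
  -- it suffices to see that `q'` is visible and that the segment from `q` to `q'` is in `E`
  suffices hmain : q' ∈ Vis E y ∧ ∀ s ∈ Icc (0 : ℝ) l, q + s • (y - q) ∈ E by
    intro t ht
    rcases le_total t (1 - l) with h | h
    · have h1l : 0 < 1 - l := by linarith
      have := hmain.1 (t / (1 - l)) ⟨div_nonneg ht.1 h1l.le, div_le_one_of_le₀ h h1l.le⟩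
      convert this using 1
      have e : q' - y = (1 - l) • (q - y) := by rw [hq']; module
      rw [e, smul_smul, div_mul_cancel₀ _ h1l.ne']
    · have := hmain.2 (1 - t) ⟨by linarith [ht.2], by linarith⟩
      convert this using 1
      module
  have hseg : ∀ s ∈ Icc (0 : ℝ) l, q + s • (y - q) = (1 - s / l) • q + (s / l) • q' := by
    intro s _
    have : s = s / l * l := by field_simp
    rw [hq']
    conv_lhs => rw [this]
    module
  rcases hloc with hst | hcv
  · have hin : ∀ s ∈ Icc (0 : ℝ) l, q + s • (y - q) ∈ E := by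
      intro s hs
      refine hst q ⟨hqb', hqE⟩ s ⟨hs.1, by linarith [hs.2]⟩ ?_
      rw [hseg s hs]
      exact convex_ball z r hqb' hq'b (by rw [sub_nonneg]; exact div_le_one_of_le₀ hs.2 hl0.le)
        (div_nonneg hs.1 hl0.le) (by ring)
    refine ⟨hρV ⟨hq'ball, ?_⟩, hin⟩
    exact hin l ⟨hl0.le, le_rfl⟩
  · have hz'V : z' ∈ Vis E y := by
      have := vis_star hz (k := 1 - l) (by linarith) (by linarith)
      convert this using 1
      rw [hz']; module
    let S : Set ℝ := {s | z' + s • (q' - z') ∈ Vis E y}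
    have hSc : IsClosed S := (isClosed_vis hE y).preimage (by fun_prop)
    have key : Icc 0 1 ⊆ S := by
      refine IsClosed.Icc_subset_of_forall_mem_nhdsWithin (hSc.inter isClosed_Icc)
        (by simpa [S] using hz'V) ?_
      rintro s ⟨hsS, hs0, hs1⟩
      set m : V := z' + s • (q' - z') with hm
      have hmV : m ∈ Vis E y := hsS
      have hmn : ‖m - z'‖ ≤ ‖q - z‖ := by
        rw [hm, add_sub_cancel_left, norm_smul, Real.norm_eq_abs, abs_of_nonneg hs0]
        have := norm_nonneg (q' - z')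
        nlinarith
      have hmb : m ∈ ball z' ρ := by rw [mem_ball, dist_eq_norm]; linarith
      have hmb' : m ∈ ball z r := by
        rw [mem_ball, dist_eq_norm]
        have : m - z = (m - z') + (z' - z) := by abel
        rw [this]
        exact lt_of_le_of_lt (norm_add_le _ _) (by linarith)
      have h1s : 0 < 1 - s := by linarith
      let θ : ℝ → ℝ := fun u => (1 - u) / (1 - s)
      have hθc : ContinuousAt θ s := by
        have : (1 - s) ≠ 0 := h1s.ne'
        fun_prop
      have hθs : θ s = 1 := by simp only [θ]; exact div_self h1s.ne'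
      let κ : ℝ → ℝ := fun u => θ u + (1 - θ u) * (1 - l)
      have hκc : ContinuousAt κ s := by fun_prop
      have hκs : κ s = 1 := by simp [κ, hθs]
      have hpc : ContinuousAt (fun u => (θ u / κ u) • m + ((1 - θ u) * (1 - l) / κ u) • q) s := by
        have : κ s ≠ 0 := by rw [hκs]; exact one_ne_zero
        fun_prop (disch := assumption)
      have e1 : ∀ᶠ u in 𝓝 s, (θ u / κ u) • m + ((1 - θ u) * (1 - l) / κ u) • q ∈ ball z' ρ := by
        have : (θ s / κ s) • m + ((1 - θ s) * (1 - l) / κ s) • q ∈ ball z' ρ := by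
          simpa [hθs, hκs] using hmb
        exact hpc.eventually (isOpen_ball.mem_nhds this)
      have e2 : ∀ᶠ u in 𝓝 s, u < 1 := gt_mem_nhds hs1
      filter_upwards [self_mem_nhdsWithin, nhdsWithin_le_nhds e1, nhdsWithin_le_nhds e2]
        with u hu h1 h2
      have hus : s < u := hu
      have hθ0 : 0 < θ u := div_pos (by linarith) h1s
      have hθ1 : θ u ≤ 1 := by rw [div_le_one h1s]; linarith
      have hκ0 : 0 < κ u := by
        have : 0 ≤ (1 - θ u) * (1 - l) := mul_nonneg (by linarith) (by linarith)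
        simp only [κ]; linarith
      have hκ1 : κ u ≤ 1 := by
        simp only [κ]; nlinarith
      set p : V := (θ u / κ u) • m + ((1 - θ u) * (1 - l) / κ u) • q with hp
      have hpE : p ∈ E := by
        have := hcv ⟨hmb', vis_subset hmV⟩ ⟨hqb', hqE⟩ (a := θ u / κ u)
          (b := (1 - θ u) * (1 - l) / κ u) (div_nonneg hθ0.le hκ0.le)
          (div_nonneg (mul_nonneg (by linarith) (by linarith)) hκ0.le)
          (by rw [← add_div]; exact div_self hκ0.ne')
        exact this.2
      have hpV : p ∈ Vis E y := hρV ⟨h1, hpE⟩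
      have hfin : z' + u • (q' - z') = y + κ u • (p - y) := by
        have hkp : κ u • p = θ u • m + ((1 - θ u) * (1 - l)) • q := by
          rw [hp, smul_add, smul_smul, smul_smul, mul_div_cancel₀ _ hκ0.ne',
            mul_div_cancel₀ _ hκ0.ne']
        have hθu : θ u * (1 - s) = 1 - u := by simp only [θ]; field_simp
        have hu' : u = 1 - θ u * (1 - s) := by linarith
        have e3 : y + κ u • (p - y) = κ u • p + (1 - κ u) • y := by module
        rw [e3, hkp, hm]
        conv_lhs => rw [hu']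
        simp only [κ]
        rw [hq']
        module
      change z' + u • (q' - z') ∈ Vis E y
      rw [hfin]
      exact vis_star hpV hκ0.le hκ1
    have hq'V : q' ∈ Vis E y := by
      have := key ⟨zero_le_one, le_rfl⟩
      simpa [S] using this
    refine ⟨hq'V, ?_⟩
    intro s hs
    rw [hseg s hs]
    exact (hcv ⟨hqb', hqE⟩ ⟨hq'b, vis_subset hq'V⟩
      (by rw [sub_nonneg]; exact div_le_one_of_le₀ hs.2 hl0.le)
      (div_nonneg hs.1 hl0.le) (by ring)).2

/-- A point of a closed connected set towards which the set is starshaped near each LNC point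
sees the whole set. -/
theorem sees_all {E : Set V} (hE : IsClosed E) (hc : IsPreconnected E) {y : V} (hy : y ∈ E)
    (hstar : ∀ x, LNC E x → ∃ r : ℝ, 0 < r ∧ y ∈ StarAt E x r) : ∀ x ∈ E, Sees E y x := by
  have hloc : ∀ x ∈ E, ∃ r : ℝ, 0 < r ∧ (y ∈ StarAt E x r ∨ Convex ℝ (ball x r ∩ E)) := by
    intro x hx
    by_cases h : LNC E x
    · obtain ⟨r, hr, h'⟩ := hstar x h
      exact ⟨r, hr, Or.inl h'⟩
    · obtain ⟨r, hr, h'⟩ := exists_convex_of_not_lnc hx h
      exact ⟨r, hr, Or.inr h'⟩
  have hopen : ∀ x0 ∈ Vis E y, ∃ ρ : ℝ, 0 < ρ ∧ ball x0 ρ ∩ E ⊆ Vis E y := by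
    intro x0 hx0
    let P : ℝ → Prop := fun t => ∃ ρ : ℝ, 0 < ρ ∧ ball (y + t • (x0 - y)) ρ ∩ E ⊆ Vis E y
    suffices h : P 1 by simpa [P] using h
    have hPo : IsOpen {t | P t} := by
      rw [Metric.isOpen_iff]
      rintro t ⟨ρ, hρ, h⟩
      have hcont : ContinuousAt (fun t : ℝ => y + t • (x0 - y)) t := by fun_prop
      obtain ⟨ε, hε, hε'⟩ := Metric.continuousAt_iff.1 hcont (ρ / 2) (by linarith)
      refine ⟨ε, hε, ?_⟩
      intro u hu
      refine ⟨ρ / 2, by linarith, ?_⟩
      refine Subset.trans ?_ h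
      apply inter_subset_inter_left
      apply ball_subset_ball'
      have := hε' hu
      linarith
    by_contra hcon
    let T : Set ℝ := Icc 0 1 ∩ {t | P t}ᶜ
    have hTc : IsCompact T := isCompact_Icc.inter_right hPo.isClosed_compl
    have hTn : T.Nonempty := ⟨1, ⟨zero_le_one, le_rfl⟩, hcon⟩
    obtain ⟨t0, ht0, hmin⟩ := hTc.exists_isLeast hTn
    apply ht0.2
    have ht00 : t0 ≠ 0 := by
      rintro rfl
      apply ht0.2
      change ∃ ρ : ℝ, 0 < ρ ∧ ball (y + (0 : ℝ) • (x0 - y)) ρ ∩ E ⊆ Vis E y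
      simp only [zero_smul, add_zero]
      obtain ⟨r, hr, h | h⟩ := hloc y hy
      · refine ⟨r, hr, ?_⟩
        rintro q ⟨hqb, hqE⟩ t ht
        have hb : y + t • (q - y) ∈ ball y r := by
          rw [mem_ball, dist_eq_norm] at hqb ⊢
          rw [add_sub_cancel_left, norm_smul, Real.norm_eq_abs, abs_of_nonneg ht.1]
          have := norm_nonneg (q - y)
          nlinarith [ht.2]
        have e : y + t • (q - y) = q + (1 - t) • (y - q) := by module
        rw [e] at hb ⊢
        exact h q ⟨hqb, hqE⟩ (1 - t) ⟨by linarith [ht.2], by linarith [ht.1]⟩ hb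
      · refine ⟨r, hr, ?_⟩
        rintro q hq t ht
        have := h ⟨mem_ball_self hr, hy⟩ hq (a := 1 - t) (b := t) (by linarith [ht.2]) ht.1
          (by ring)
        convert this.2 using 1
        module
    have ht0pos : 0 < t0 := lt_of_le_of_ne ht0.1.1 (Ne.symm ht00)
    have hzV : y + t0 • (x0 - y) ∈ Vis E y := vis_star hx0 ht0.1.1 ht0.1.2
    obtain ⟨r, hr, hl⟩ := hloc _ (vis_subset hzV)
    refine vis_step hE hr hzV hl ?_
    rintro l ⟨hl0, hl1⟩
    have hlt : t0 * (1 - l) < t0 := by nlinarith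
    have hge : 0 ≤ t0 * (1 - l) := mul_nonneg ht0pos.le (by linarith)
    have hP : P (t0 * (1 - l)) := by
      by_contra hnP
      have : t0 * (1 - l) ∈ T := ⟨⟨hge, by linarith [ht0.1.2]⟩, hnP⟩
      linarith [hmin this]
    have e : (y + t0 • (x0 - y)) + l • (y - (y + t0 • (x0 - y)))
        = y + (t0 * (1 - l)) • (x0 - y) := by module
    rw [e]
    exact hP
  have hyV : y ∈ Vis E y := by
    intro t _
    simpa using hy
  intro x hx
  rw [sees_iff]
  by_contra hxV
  choose! ρ hρ hρV using hopen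
  have := hc (⋃ x0 ∈ Vis E y, ball x0 (ρ x0)) (Vis E y)ᶜ
    (isOpen_biUnion fun _ _ => isOpen_ball) (isClosed_vis hE y).isOpen_compl ?_ ?_ ⟨x, hx, hxV⟩
  · obtain ⟨w, hwE, hw1, hw2⟩ := this
    simp only [mem_iUnion] at hw1
    obtain ⟨x0, hx0, hwb⟩ := hw1
    exact hw2 (hρV x0 hx0 ⟨hwb, hwE⟩)
  · intro w hw
    by_cases hwV : w ∈ Vis E y
    · left
      simp only [mem_iUnion]
      exact ⟨w, hwV, mem_ball_self (hρ w hwV)⟩
    · exact Or.inr hwV
  · refine ⟨y, hy, ?_⟩
    simp only [mem_iUnion]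
    exact ⟨y, hyV, mem_ball_self (hρ y hyV)⟩

end Kernel

section Level

variable {V : Type*} [NormedAddCommGroup V] [InnerProductSpace ℝ V]

/-- Any two points of `E` near `q` are joined in `E` by two segments through a point that is
not lower than both of them, or above level `0`. -/
def Loc (E : Set V) (l : V → ℝ) (q : V) (r : ℝ) : Prop :=
  ∀ p1 ∈ ball q r ∩ E, ∀ p2 ∈ ball q r ∩ E,
    ∃ z, segment ℝ p1 z ⊆ E ∧ segment ℝ p2 z ⊆ E ∧ (max (l p1) (l p2) ≤ l z ∨ 0 < l z)

/-- The part of `E` at level at least `c` is separated, `N` and `N2` being on different sides. -/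
def Sep (E : Set V) (l : V → ℝ) (N N2 : Set V) (c : ℝ) : Prop :=
  ∃ A B : Set V, IsClosed A ∧ IsClosed B ∧ Disjoint A B ∧ A ∪ B = E ∩ {p | c ≤ l p} ∧
    N ⊆ A ∧ N2 ⊆ B

omit [InnerProductSpace ℝ V] in
theorem sep_mono {E : Set V} {l : V → ℝ} (hlc : Continuous l) {N N2 : Set V}
    (hN0 : ∀ p ∈ N, 0 ≤ l p) (hN20 : ∀ p ∈ N2, 0 ≤ l p) {c c' : ℝ}
    (h : Sep E l N N2 c) (hcc : c ≤ c') (hc' : c' ≤ 0) : Sep E l N N2 c' := by
  obtain ⟨A, B, hA, hB, hd, hu, h1, h2⟩ := h
  have hcl : IsClosed {p | c' ≤ l p} := isClosed_le continuous_const hlc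
  refine ⟨A ∩ {p | c' ≤ l p}, B ∩ {p | c' ≤ l p}, hA.inter hcl, hB.inter hcl,
    hd.mono inter_subset_left inter_subset_left, ?_, ?_, ?_⟩
  · rw [← union_inter_distrib_right, hu, inter_assoc]
    congr 1
    ext p
    simp only [mem_inter_iff, mem_ofPred_eq]
    constructor
    · rintro ⟨_, h⟩; exact h
    · intro h; exact ⟨by linarith, h⟩
  · intro p hp; exact ⟨h1 hp, by have := hN0 p hp; simp only [mem_ofPred_eq]; linarith⟩
  · intro p hp; exact ⟨h2 hp, by have := hN20 p hp; simp only [mem_ofPred_eq]; linarith⟩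

omit [InnerProductSpace ℝ V] in
theorem sep_down {E : Set V} (hE : IsCompact E) {l : V → ℝ} (hlc : Continuous l)
    {N N2 : Set V} {c : ℝ} (h : Sep E l N N2 c) : ∃ c' < c, Sep E l N N2 c' := by
  obtain ⟨A, B, hA, hB, hd, hu, h1, h2⟩ := h
  have hAE : A ⊆ E := fun p hp => (hu.subset (Or.inl hp)).1
  have hBE : B ⊆ E := fun p hp => (hu.subset (Or.inr hp)).1
  have hAc : IsCompact A := hE.of_isClosed_subset hA hAE
  have hBc : IsCompact B := hE.of_isClosed_subset hB hBE
  obtain ⟨U, W, hU, hW, hAU, hBW, hUW⟩ := SeparatedNhds.of_isCompact_isCompact hAc hBc hd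
  -- the compact rest
  have hF : IsCompact (E \ (U ∪ W)) := hE.diff (hU.union hW)
  obtain ⟨c', hc', hsub⟩ : ∃ c' < c, E ∩ {p | c' ≤ l p} ⊆ U ∪ W := by
    rcases (E \ (U ∪ W)).eq_empty_or_nonempty with he | hne
    · refine ⟨c - 1, by linarith, ?_⟩
      intro p hp
      by_contra hcon
      have : p ∈ E \ (U ∪ W) := ⟨hp.1, hcon⟩
      rw [he] at this
      exact this
    · obtain ⟨m, hm, hmax⟩ := hF.exists_isMaxOn hne hlc.continuousOn
      have hlm : l m < c := by
        by_contra hcon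
        have : m ∈ E ∩ {p | c ≤ l p} := ⟨hm.1, not_lt.1 hcon⟩
        rw [← hu] at this
        exact hm.2 (this.imp (fun h => hAU h) (fun h => hBW h))
      refine ⟨(l m + c) / 2, by linarith, ?_⟩
      intro p hp
      by_contra hcon
      have h3 : l p ≤ l m := hmax ⟨hp.1, hcon⟩
      have h4 : (l m + c) / 2 ≤ l p := hp.2
      linarith
  have hEc : IsClosed (E ∩ {p | c' ≤ l p}) :=
    hE.isClosed.inter (isClosed_le continuous_const hlc)
  have hN : ∀ p ∈ A ∪ B, p ∈ E ∩ {p | c' ≤ l p} := by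
    intro p hp
    rw [hu] at hp
    exact ⟨hp.1, by have := hp.2; simp only [mem_ofPred_eq] at this ⊢; linarith⟩
  refine ⟨c', hc', (E ∩ {p | c' ≤ l p}) \ W, (E ∩ {p | c' ≤ l p}) \ U, hEc.sdiff hW,
    hEc.sdiff hU, ?_, ?_, ?_, ?_⟩
  · rw [Set.disjoint_left]
    rintro p ⟨hp1, hp2⟩ ⟨_, hp3⟩
    exact (hsub hp1).elim hp3 hp2
  · ext p
    constructor
    · rintro (h | h)
      · exact h.1
      · exact h.1
    · intro hp
      by_cases hpW : p ∈ W
      · right
        exact ⟨hp, fun hpU => Set.disjoint_left.1 hUW hpU hpW⟩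
      · left; exact ⟨hp, hpW⟩
  · intro p hp
    exact ⟨hN p (Or.inl (h1 hp)), fun hpW => Set.disjoint_left.1 hUW (hAU (h1 hp)) hpW⟩
  · intro p hp
    exact ⟨hN p (Or.inr (h2 hp)), fun hpU => Set.disjoint_left.1 hUW hpU (hBW (h2 hp))⟩

theorem le_on_segment {l : V → ℝ}
    (hla : ∀ (x y : V) (a b : ℝ), a + b = 1 → l (a • x + b • y) = a * l x + b * l y)
    {x y w : V} (hw : w ∈ segment ℝ x y) {c : ℝ} (hx : c ≤ l x) (hy : c ≤ l y) : c ≤ l w := by
  obtain ⟨a, b, ha, hb, hab, rfl⟩ := hw
  rw [hla x y a b hab]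
  have hb' : b = 1 - a := by linarith
  subst hb'
  nlinarith

theorem isPreconnected_segment' (x y : V) : IsPreconnected (segment ℝ x y) :=
  (convex_segment x y).isPreconnected

/-- The points above level `c0` that are joined to `N` above a higher level. -/
def Joined (E : Set V) (l : V → ℝ) (N : Set V) (c0 : ℝ) : Set V :=
  {p | p ∈ E ∧ c0 < l p ∧ ∃ S : Set V, S ⊆ E ∧ IsPreconnected S ∧ p ∈ S ∧ (S ∩ N).Nonempty ∧
    ∃ c, c0 < c ∧ ∀ s ∈ S, c ≤ l s}

theorem joined_of_joined {E : Set V} {l : V → ℝ}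
    (hla : ∀ (x y : V) (a b : ℝ), a + b = 1 → l (a • x + b • y) = a * l x + b * l y)
    {N : Set V} {c0 : ℝ} (hc0 : c0 < 0) {q : V} {r : ℝ} (hloc : Loc E l q r)
    {a b : V} (ha : a ∈ Joined E l N c0) (haq : a ∈ ball q r) (hb : b ∈ E) (hbq : b ∈ ball q r)
    (hbl : c0 < l b) : b ∈ Joined E l N c0 := by
  obtain ⟨haE, hal, S, hSE, hSp, haS, hSN, c, hc, hSc⟩ := ha
  obtain ⟨z, hz1, hz2, hz3⟩ := hloc a ⟨haq, haE⟩ b ⟨hbq, hb⟩
  have hlz : c0 < l z := by
    rcases hz3 with h | h
    · exact lt_of_lt_of_le hal ((le_max_left _ _).trans h)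
    · linarith
  refine ⟨hb, hbl, (S ∪ segment ℝ a z) ∪ segment ℝ b z, ?_, ?_, ?_, ?_,
    min c (min (l a) (min (l b) (l z))), ?_, ?_⟩
  · exact union_subset (union_subset hSE hz1) hz2
  · refine IsPreconnected.union z (Or.inr (right_mem_segment ℝ a z)) (right_mem_segment ℝ b z)
      ?_ (isPreconnected_segment' b z)
    exact IsPreconnected.union a haS (left_mem_segment ℝ a z) hSp (isPreconnected_segment' a z)
  · exact Or.inr (left_mem_segment ℝ b z)
  · exact hSN.mono (inter_subset_inter_left _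
      ((subset_union_left (s := S) (t := segment ℝ a z)).trans subset_union_left))
  · exact lt_min hc (lt_min hal (lt_min hbl hlz))
  · rintro s ((hs | hs) | hs)
    · exact (min_le_left _ _).trans (hSc s hs)
    · refine le_on_segment hla hs ?_ ?_
      · exact (min_le_right _ _).trans (min_le_left _ _)
      · exact (min_le_right _ _).trans ((min_le_right _ _).trans (min_le_right _ _))
    · refine le_on_segment hla hs ?_ ?_
      · exact (min_le_right _ _).trans ((min_le_right _ _).trans (min_le_left _ _))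
      · exact (min_le_right _ _).trans ((min_le_right _ _).trans (min_le_right _ _))

theorem closure_of_joined {E : Set V} {l : V → ℝ}
    (hla : ∀ (x y : V) (a b : ℝ), a + b = 1 → l (a • x + b • y) = a * l x + b * l y)
    {N : Set V} {c0 : ℝ} (hc0 : c0 < 0) {q : V} {r : ℝ} (hloc : Loc E l q r)
    {a b : V} (ha : a ∈ Joined E l N c0) (haq : a ∈ ball q r) (hb : b ∈ E) (hbq : b ∈ ball q r)
    (hbl : c0 ≤ l b) : b ∈ closure (Joined E l N c0) := by
  rcases eq_or_lt_of_le hbl with h | h
  · obtain ⟨z, hz1, hz2, hz3⟩ := hloc a ⟨haq, ha.1⟩ b ⟨hbq, hb⟩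
    have hlz : c0 < l z := by
      rcases hz3 with h | h
      · exact lt_of_lt_of_le ha.2.1 ((le_max_left _ _).trans h)
      · linarith
    have ht : Tendsto (fun t : ℝ => b + t • (z - b)) (𝓝[>] 0) (𝓝 b) := by
      have hc : Continuous (fun t : ℝ => b + t • (z - b)) := by fun_prop
      have := hc.tendsto 0
      simp only [zero_smul, add_zero] at this
      exact this.mono_left nhdsWithin_le_nhds
    refine mem_closure_of_tendsto ht ?_
    have e1 : ∀ᶠ t in 𝓝[>] (0 : ℝ), b + t • (z - b) ∈ ball q r :=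
      ht.eventually (isOpen_ball.mem_nhds hbq)
    have e2 : ∀ᶠ t in 𝓝[>] (0 : ℝ), t < 1 := nhdsWithin_le_nhds (gt_mem_nhds one_pos)
    filter_upwards [e1, e2, self_mem_nhdsWithin] with t ht1 ht2 ht3
    have ht0 : (0 : ℝ) < t := ht3
    have he : b + t • (z - b) = (1 - t) • b + t • z := by module
    have hmem : b + t • (z - b) ∈ E := by
      apply hz2
      rw [he]
      exact ⟨1 - t, t, by linarith, ht0.le, by ring, rfl⟩
    refine joined_of_joined hla hc0 hloc ha haq hmem ht1 ?_
    rw [he, hla b z (1 - t) t (by ring), ← h]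
    nlinarith
  · exact subset_closure (joined_of_joined hla hc0 hloc ha haq hb hbq h)

theorem level_aux {E : Set V} (hE : IsCompact E) (hc : IsPreconnected E) {l : V → ℝ}
    (hlc : Continuous l)
    (hla : ∀ (x y : V) (a b : ℝ), a + b = 1 → l (a • x + b • y) = a * l x + b * l y)
    (hloc : ∀ q ∈ E, ∃ r : ℝ, 0 < r ∧ Loc E l q r)
    {N N2 : Set V} (hN : IsClosed N) (hN2 : IsClosed N2) (hd : Disjoint N N2)
    (hu : N ∪ N2 = E ∩ {p | 0 ≤ l p}) (hn : N.Nonempty) (hn2 : N2.Nonempty) : False := by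
  have hN0 : ∀ p ∈ N, 0 ≤ l p := fun p hp => (hu.subset (Or.inl hp)).2
  have hN20 : ∀ p ∈ N2, 0 ≤ l p := fun p hp => (hu.subset (Or.inr hp)).2
  have hNE : N ⊆ E := fun p hp => (hu.subset (Or.inl hp)).1
  have hN2E : N2 ⊆ E := fun p hp => (hu.subset (Or.inr hp)).1
  let T : Set ℝ := {c | c ≤ 0 ∧ Sep E l N N2 c}
  have h0T : (0 : ℝ) ∈ T := ⟨le_rfl, N, N2, hN, hN2, hd, hu, Subset.rfl, Subset.rfl⟩
  have hEne : E.Nonempty := hn.mono hNE
  obtain ⟨m, hm, hmin⟩ := hE.exists_isMinOn hEne hlc.continuousOn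
  have hbd : ∀ c ∈ T, l m ≤ c := by
    intro c hcT
    by_contra hcon
    push Not at hcon
    obtain ⟨_, A, B, hA, hB, hAB, hu', h1, h2⟩ := hcT
    have hEe : E ∩ {p | c ≤ l p} = E := by
      rw [inter_eq_left]
      intro p hp
      have : l m ≤ l p := hmin hp
      simp only [mem_ofPred_eq]; linarith
    rw [hEe] at hu'
    have := isPreconnected_closed_iff.1 hc A B hA hB hu'.symm.subset
      (hn.mono fun p hp => ⟨hNE hp, h1 hp⟩) (hn2.mono fun p hp => ⟨hN2E hp, h2 hp⟩)
    obtain ⟨w, _, hw1, hw2⟩ := this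
    exact Set.disjoint_left.1 hAB hw1 hw2
  have hTb : BddBelow T := ⟨l m, hbd⟩
  set c0 : ℝ := sInf T with hc0
  have hup : ∀ c, c0 < c → c ≤ 0 → Sep E l N N2 c := by
    intro c h1 h2
    obtain ⟨c1, hc1, hlt⟩ := exists_lt_of_csInf_lt ⟨0, h0T⟩ h1
    exact sep_mono hlc hN0 hN20 hc1.2 hlt.le h2
  have hc0neg : c0 < 0 := by
    obtain ⟨c', hc', hs⟩ := sep_down hE hlc h0T.2
    exact lt_of_le_of_lt (csInf_le hTb ⟨hc'.le, hs⟩) hc'
  have hfin : Sep E l N N2 c0 := by
    set J : Set V := Joined E l N c0 with hJ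
    have hcl : IsClosed (E ∩ {p | c0 ≤ l p}) :=
      hE.isClosed.inter (isClosed_le continuous_const hlc)
    have hJsub : closure J ⊆ E ∩ {p | c0 ≤ l p} := by
      refine closure_minimal ?_ hcl
      intro p hp
      exact ⟨hp.1, hp.2.1.le⟩
    have hNJ : N ⊆ J := by
      intro p hp
      refine ⟨hNE hp, lt_of_lt_of_le hc0neg (hN0 p hp), {p}, ?_, isPreconnected_singleton,
        rfl, ⟨p, rfl, hp⟩, 0, hc0neg, ?_⟩
      · rw [singleton_subset_iff]; exact hNE hp
      · intro s hs
        rw [mem_singleton_iff] at hs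
        subst hs
        exact hN0 s hp
    have hJN2 : Disjoint (closure J) N2 := by
      rw [Set.disjoint_left]
      intro p hp hp2
      have hpE : p ∈ E := hN2E hp2
      have hpl : c0 < l p := lt_of_lt_of_le hc0neg (hN20 p hp2)
      obtain ⟨r, hr, hL⟩ := hloc p hpE
      obtain ⟨a, haJ, haq⟩ := Metric.mem_closure_iff.1 hp r hr
      have haq' : a ∈ ball p r := by rw [mem_ball, dist_comm]; exact haq
      obtain ⟨_, _, S, hSE, hSp, hpS, hSN, c, hcc, hSc⟩ :=
        joined_of_joined hla hc0neg hL haJ haq' hpE (mem_ball_self hr) hpl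
      obtain ⟨A, B, hA, hB, hAB, hu', h1, h2⟩ := hup (min c 0) (lt_min hcc hc0neg)
        (min_le_right _ _)
      have hSsub : S ⊆ A ∪ B := by
        rw [hu']
        intro s hs
        exact ⟨hSE hs, (min_le_left _ _).trans (hSc s hs)⟩
      have := isPreconnected_closed_iff.1 hSp A B hA hB hSsub
        (hSN.mono fun w hw => ⟨hw.1, h1 hw.2⟩) ⟨p, hpS, h2 hp2⟩
      obtain ⟨w, _, hw1, hw2⟩ := this
      exact Set.disjoint_left.1 hAB hw1 hw2
    refine ⟨closure J, (E ∩ {p | c0 ≤ l p}) \ closure J, isClosed_closure, ?_, ?_, ?_,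
      hNJ.trans subset_closure, ?_⟩
    · -- closedness of the other side
      rw [← closure_subset_iff_isClosed]
      intro q hq
      have hqE : q ∈ E ∩ {p | c0 ≤ l p} := by
        have := closure_mono (s := (E ∩ {p | c0 ≤ l p}) \ closure J) sdiff_subset hq
        rwa [hcl.closure_eq] at this
      refine ⟨hqE, fun hqJ => ?_⟩
      obtain ⟨r, hr, hL⟩ := hloc q hqE.1
      obtain ⟨a, haJ, haq⟩ := Metric.mem_closure_iff.1 hqJ r hr
      have haq' : a ∈ ball q r := by rw [mem_ball, dist_comm]; exact haq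
      obtain ⟨b, hbB, hbq⟩ := Metric.mem_closure_iff.1 hq r hr
      have hbq' : b ∈ ball q r := by rw [mem_ball, dist_comm]; exact hbq
      exact hbB.2 (closure_of_joined hla hc0neg hL haJ haq' hbB.1.1 hbq' hbB.1.2)
    · exact disjoint_sdiff_right
    · exact union_sdiff_cancel hJsub
    · intro p hp
      refine ⟨⟨hN2E hp, ?_⟩, fun hpJ => Set.disjoint_left.1 hJN2 hpJ hp⟩
      have := hN20 p hp
      simp only [mem_ofPred_eq]; linarith
  obtain ⟨c', hc', hs⟩ := sep_down hE hlc hfin
  have : c0 ≤ c' := csInf_le hTb ⟨by linarith, hs⟩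
  linarith

end Level

section Main

variable {V : Type*} [NormedAddCommGroup V] [InnerProductSpace ℝ V]

/-- If `y` is in the convex hull of `E` and, for each LNC point `x`, in the convex hull of
points of `E` from which `x` is clearly visible, then `y` is in `E`. -/
theorem mem_of_mem_hull {E : Set V} (hE : IsCompact E) (hc : IsConnected E) {y : V}
    (hyE : y ∈ convexHull ℝ E)
    (hy : ∀ x, LNC E x → ∃ Z : Set V, (∀ z ∈ Z, ClearlyVisible E x z) ∧ y ∈ convexHull ℝ Z) :
    y ∈ E := by
  by_contra hyn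
  obtain ⟨p, hpE, hpmin⟩ := hE.exists_isMinOn hc.nonempty
    (f := fun q => dist q y) (by fun_prop)
  have hmin : ∀ q ∈ E, ‖p - y‖ ≤ ‖q - y‖ := by
    intro q hq
    have := hpmin hq
    simpa [dist_eq_norm] using this
  let l : V → ℝ := fun q => inner ℝ (q - p) (y - p)
  have hlc : Continuous l := by fun_prop
  have hla : ∀ (x y : V) (a b : ℝ), a + b = 1 → l (a • x + b • y) = a * l x + b * l y := by
    intro x z a b hab
    simp only [l]
    have hb : b = 1 - a := by linarith
    subst hb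
    have e : a • x + (1 - a) • z - p = a • (x - p) + (1 - a) • (z - p) := by module
    rw [e, inner_add_left, inner_smul_left, inner_smul_left]
    simp
  have hly : 0 < l y := by
    simp only [l]
    rw [real_inner_self_pos, sub_ne_zero]
    rintro rfl
    exact hyn hpE
  have hlp : l p = 0 := by simp [l]
  have hhalf : Convex ℝ {q | l q ≤ 0} := by
    intro a ha b hb s t hs ht hst
    simp only [mem_ofPred_eq] at ha hb ⊢
    rw [hla a b s t hst]
    nlinarith
  have hhull : ∀ Z : Set V, y ∈ convexHull ℝ Z → ∃ z ∈ Z, 0 < l z := by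
    intro Z hZ
    by_contra hcon
    push Not at hcon
    have : y ∈ {q | l q ≤ 0} := convexHull_min (fun z hz => hcon z hz) hhalf hZ
    simp only [mem_ofPred_eq] at this
    linarith
  have hloc : ∀ q ∈ E, ∃ r : ℝ, 0 < r ∧ Loc E l q r := by
    intro q hq
    by_cases h : LNC E q
    · obtain ⟨Z, hZ, hyZ⟩ := hy q h
      obtain ⟨z, hzZ, hlz⟩ := hhull Z hyZ
      obtain ⟨r, hr, hv⟩ := hZ z hzZ
      refine ⟨r, hr, ?_⟩
      intro p1 h1 p2 h2
      refine ⟨z, ?_, ?_, Or.inr hlz⟩
      · rw [segment_symm]; exact hv p1 h1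
      · rw [segment_symm]; exact hv p2 h2
    · obtain ⟨r, hr, hconv⟩ := exists_convex_of_not_lnc hq h
      refine ⟨r, hr, ?_⟩
      intro p1 h1 p2 h2
      have hseg : segment ℝ p1 p2 ⊆ E := (hconv.segment_subset h1 h2).trans inter_subset_right
      rcases le_total (l p1) (l p2) with hle | hle
      · refine ⟨p2, hseg, ?_, Or.inl (by simp [hle])⟩
        rw [segment_same, singleton_subset_iff]
        exact h2.2
      · refine ⟨p1, ?_, ?_, Or.inl (by simp [hle])⟩
        · rw [segment_same, singleton_subset_iff]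
          exact h1.2
        · rw [segment_symm]; exact hseg
  -- the local maxima at level `0`
  let N : Set V := {q | q ∈ E ∧ l q = 0 ∧ ∃ r : ℝ, 0 < r ∧ ∀ w ∈ ball q r ∩ E, l w ≤ 0}
  -- a point of `N` is not joined to a point at a positive level
  have hNseg : ∀ q ∈ N, ∀ z, segment ℝ q z ⊆ E → l z ≤ 0 := by
    rintro q ⟨hqE, hq0, r, hr, hqr⟩ z hz
    by_contra hcon
    push Not at hcon
    have ht : Tendsto (fun t : ℝ => q + t • (z - q)) (𝓝[>] 0) (𝓝 q) := by
      have hc : Continuous (fun t : ℝ => q + t • (z - q)) := by fun_prop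
      have := hc.tendsto 0
      simp only [zero_smul, add_zero] at this
      exact this.mono_left nhdsWithin_le_nhds
    have e1 : ∀ᶠ t in 𝓝[>] (0 : ℝ), q + t • (z - q) ∈ ball q r :=
      ht.eventually (isOpen_ball.mem_nhds (mem_ball_self hr))
    have e2 : ∀ᶠ t in 𝓝[>] (0 : ℝ), t < 1 := nhdsWithin_le_nhds (gt_mem_nhds one_pos)
    obtain ⟨t, ht1, ht2, ht3⟩ := (e1.and (e2.and self_mem_nhdsWithin)).exists
    have ht0 : (0 : ℝ) < t := ht3
    have he : q + t • (z - q) = (1 - t) • q + t • z := by module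
    have hmem : q + t • (z - q) ∈ E := by
      apply hz
      rw [he]
      exact ⟨1 - t, t, by linarith, ht0.le, by ring, rfl⟩
    have := hqr _ ⟨ht1, hmem⟩
    rw [he, hla q z (1 - t) t (by ring), hq0] at this
    nlinarith
  have hNc : IsClosed N := by
    rw [← closure_subset_iff_isClosed]
    intro q hq
    have hqE : q ∈ E := by
      have := closure_mono (s := N) (t := E) (fun w hw => hw.1) hq
      rwa [hE.isClosed.closure_eq] at this
    have hq0 : l q = 0 := by
      have hcl : IsClosed {w | l w = 0} := isClosed_eq hlc continuous_const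
      have := closure_mono (s := N) (t := {w | l w = 0}) (fun w hw => hw.2.1) hq
      rwa [hcl.closure_eq] at this
    obtain ⟨r, hr, hL⟩ := hloc q hqE
    refine ⟨hqE, hq0, r, hr, ?_⟩
    intro w hw
    by_contra hcon
    push Not at hcon
    obtain ⟨a, haN, haq⟩ := Metric.mem_closure_iff.1 hq r hr
    obtain ⟨z, hz1, hz2, hz3⟩ := hL a ⟨by rw [mem_ball, dist_comm]; exact haq, haN.1⟩ w hw
    have h1 := hNseg a haN z hz1
    rcases hz3 with h | h
    · have := (le_max_right (l a) (l w)).trans h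
      linarith
    · linarith
  have hNo : IsClosed ((E ∩ {q | 0 ≤ l q}) \ N) := by
    rw [← closure_subset_iff_isClosed]
    intro q hq
    have hcl : IsClosed (E ∩ {q | 0 ≤ l q}) :=
      hE.isClosed.inter (isClosed_le continuous_const hlc)
    have hqE : q ∈ E ∩ {q | 0 ≤ l q} := by
      have := closure_mono (s := (E ∩ {q | 0 ≤ l q}) \ N) sdiff_subset hq
      rwa [hcl.closure_eq] at this
    refine ⟨hqE, ?_⟩
    rintro ⟨_, hq0, r, hr, hqr⟩
    obtain ⟨a, ha, haq⟩ := Metric.mem_closure_iff.1 hq r hr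
    have haq' : a ∈ ball q r := by rw [mem_ball, dist_comm]; exact haq
    apply ha.2
    have h1 : l a ≤ 0 := hqr a ⟨haq', ha.1.1⟩
    have h2 : 0 ≤ l a := ha.1.2
    refine ⟨ha.1.1, le_antisymm h1 h2, r - dist a q, ?_, ?_⟩
    · rw [mem_ball] at haq'; linarith
    · rintro w ⟨hw, hwE⟩
      refine hqr w ⟨?_, hwE⟩
      rw [mem_ball] at hw ⊢
      linarith [dist_triangle w a q]
  have hpN : p ∈ N := by
    refine ⟨hpE, hlp, ?_⟩
    obtain ⟨r, hr, hL⟩ := hloc p hpE
    refine ⟨r, hr, ?_⟩
    intro w hw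
    by_contra hcon
    push Not at hcon
    obtain ⟨z, hz1, -, hz3⟩ := hL p ⟨mem_ball_self hr, hpE⟩ w hw
    have hlz : 0 < l z := by
      rcases hz3 with h | h
      · exact lt_of_lt_of_le hcon ((le_max_right (l p) (l w)).trans h)
      · exact h
    -- a point of the segment is closer to `y`
    have hzp : 0 < ‖z - p‖ ^ 2 := by
      rcases eq_or_ne z p with h | h
      · rw [h, hlp] at hlz; exact absurd hlz (lt_irrefl 0)
      · have := norm_pos_iff.2 (sub_ne_zero.2 h); positivity
    obtain ⟨t, ht0, ht1, ht2⟩ : ∃ t : ℝ, 0 < t ∧ t ≤ 1 ∧ t * ‖z - p‖ ^ 2 < 2 * l z := by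
      refine ⟨min 1 (l z / ‖z - p‖ ^ 2), lt_min one_pos (div_pos hlz hzp), min_le_left _ _, ?_⟩
      have : min 1 (l z / ‖z - p‖ ^ 2) * ‖z - p‖ ^ 2 ≤ l z / ‖z - p‖ ^ 2 * ‖z - p‖ ^ 2 :=
        mul_le_mul_of_nonneg_right (min_le_right _ _) hzp.le
      rw [div_mul_cancel₀ _ hzp.ne'] at this
      linarith
    have hmem : p + t • (z - p) ∈ E := by
      apply hz1
      exact ⟨1 - t, t, by linarith, ht0.le, by ring, by module⟩
    have h3 := hmin _ hmem
    have h4 : ‖p + t • (z - p) - y‖ ^ 2 = ‖p - y‖ ^ 2 - 2 * t * l z + t ^ 2 * ‖z - p‖ ^ 2 := by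
      have e : p + t • (z - p) - y = (p - y) + t • (z - p) := by abel
      rw [e, norm_add_sq_real, norm_smul, inner_smul_right]
      have e2 : inner ℝ (p - y) (z - p) = - l z := by
        simp only [l]
        rw [← neg_sub y p, inner_neg_left, real_inner_comm]
      rw [e2, Real.norm_eq_abs, mul_pow, sq_abs]
      ring
    have h5 : ‖p - y‖ ^ 2 ≤ ‖p + t • (z - p) - y‖ ^ 2 := by
      have := norm_nonneg (p - y)
      nlinarith
    rw [h4] at h5
    nlinarith
  rcases ((E ∩ {q | 0 ≤ l q}) \ N).eq_empty_or_nonempty with he | hne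
  · obtain ⟨z, hzE, hz0⟩ := hhull E hyE
    have hzN : z ∈ N := by
      by_contra hcon
      have : z ∈ (E ∩ {q | 0 ≤ l q}) \ N := ⟨⟨hzE, hz0.le⟩, hcon⟩
      rw [he] at this
      exact this
    linarith [hzN.2.1]
  · refine level_aux hE hc.isPreconnected hlc hla hloc hNc hNo disjoint_sdiff_right ?_
      ⟨p, hpN⟩ hne
    apply union_sdiff_cancel
    intro q hq
    exact ⟨hq.1, by simp only [mem_ofPred_eq]; rw [hq.2.1]⟩

theorem isClosed_lnc {E : Set V} (hE : IsClosed E) : IsClosed {x | LNC E x} := by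
  rw [← closure_subset_iff_isClosed]
  intro x hx
  refine ⟨?_, ?_, ?_⟩
  · have := closure_mono (t := E) (fun w (hw : LNC E w) => hw.1) hx
    rwa [hE.closure_eq] at this
  · have := closure_mono (t := frontier E) (fun w (hw : LNC E w) => hw.2.1) hx
    rwa [isClosed_frontier.closure_eq] at this
  · intro r hr hconv
    obtain ⟨a, ha, hax⟩ := Metric.mem_closure_iff.1 hx r hr
    have hpos : 0 < r - dist x a := by linarith
    apply ha.2.2 (r - dist x a) hpos
    have : ball a (r - dist x a) ∩ E = ball a (r - dist x a) ∩ (ball x r ∩ E) := by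
      ext w
      constructor
      · rintro ⟨h1, h2⟩
        refine ⟨h1, ?_, h2⟩
        rw [mem_ball] at h1 ⊢
        have := dist_triangle w a x
        rw [dist_comm a x] at this
        linarith
      · rintro ⟨h1, _, h2⟩
        exact ⟨h1, h2⟩
    rw [this]
    exact (convex_ball _ _).inter hconv

theorem isOpen_clearlyVisible (E : Set V) (y : V) : IsOpen {x | ClearlyVisible E x y} := by
  rw [Metric.isOpen_iff]
  rintro x ⟨r, hr, h⟩
  refine ⟨r, hr, ?_⟩
  intro x' hx'
  rw [mem_ball] at hx'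
  refine ⟨r - dist x' x, by linarith, ?_⟩
  rintro z ⟨hz, hzE⟩
  refine h z ⟨?_, hzE⟩
  rw [mem_ball] at hz ⊢
  linarith [dist_triangle z x' x]

/-- The common point given by Helly's theorem. -/
theorem exists_common (d : ℕ) {E : Set (EuclideanSpace ℝ (Fin d))} (hE : IsCompact E)
    (hC : PropertyC (d + 1) E) :
    ∃ y, ∀ x, LNC E x → ∃ Z : Set (EuclideanSpace ℝ (Fin d)), Z ⊆ E ∧
      (∀ z ∈ Z, ClearlyVisible E x z) ∧ y ∈ convexHull ℝ Z := by
  classical
  let Γ : Set (EuclideanSpace ℝ (Fin d)) := {x | LNC E x}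
  have hΓ : IsCompact Γ := hE.of_isClosed_subset (isClosed_lnc hE.isClosed) fun x hx => hx.1
  let K : Set (Fin (d + 1) → EuclideanSpace ℝ (Fin d)) := Set.pi univ fun _ => Γ
  have hK : IsCompact K := isCompact_univ_pi fun _ => hΓ
  have hex : ∀ f : Fin (d + 1) → EuclideanSpace ℝ (Fin d), f ∈ K →
      ∃ y ∈ E, ∀ i, ClearlyVisible E (f i) y := fun f hf => hC f fun i => hf i (mem_univ i)
  choose! Y hYE hY using hex
  obtain ⟨t, htK, ht⟩ := hK.elim_nhds_subcover
    (fun f => {g | ∀ i, ClearlyVisible E (g i) (Y f)}) (by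
      intro f hf
      refine IsOpen.mem_nhds ?_ (hY f hf)
      have : {g : Fin (d + 1) → EuclideanSpace ℝ (Fin d) | ∀ i, ClearlyVisible E (g i) (Y f)}
          = ⋂ i, (fun g : Fin (d + 1) → EuclideanSpace ℝ (Fin d) => g i) ⁻¹'
            {x | ClearlyVisible E x (Y f)} := by
        ext g; simp
      rw [this]
      exact isOpen_iInter_of_finite fun i =>
        (isOpen_clearlyVisible E (Y f)).preimage (continuous_apply i))
  let F : Γ → Set (EuclideanSpace ℝ (Fin d)) := fun x =>
    convexHull ℝ {z | z ∈ t.image Y ∧ ClearlyVisible E x.1 z}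
  have hne : (⋂ x, F x).Nonempty := by
    refine Convex.helly_theorem_compact' (𝕜 := ℝ) (fun x => convex_convexHull ℝ _) ?_ ?_
    · intro x
      refine Set.Finite.isCompact_convexHull (𝕜 := ℝ) ?_
      exact (t.image Y).finite_toSet.subset fun z hz => hz.1
    · intro I hI
      rw [finrank_euclideanSpace_fin] at hI
      rcases I.eq_empty_or_nonempty with rfl | ⟨x0, hx0⟩
      · simp
      · let f : Fin (d + 1) → EuclideanSpace ℝ (Fin d) := fun i =>
          if h : (i : ℕ) < I.card then ((I.equivFin.symm ⟨i, h⟩ : I) : Γ).1 else x0.1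
        have hf : f ∈ K := by
          intro i _
          simp only [f]
          split_ifs with h
          · exact ((I.equivFin.symm ⟨i, h⟩ : I) : Γ).2
          · exact x0.2
        have hfs : ∀ x ∈ I, ∃ i, f i = x.1 := by
          intro x hx
          have hlt : ((I.equivFin ⟨x, hx⟩ : Fin I.card) : ℕ) < I.card :=
            (I.equivFin ⟨x, hx⟩).2
          refine ⟨⟨(I.equivFin ⟨x, hx⟩ : Fin I.card), lt_of_lt_of_le hlt hI⟩, ?_⟩
          simp only [f, hlt, dif_pos, Fin.eta, Equiv.symm_apply_apply]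
        obtain ⟨g, hg, hgf⟩ := mem_iUnion₂.1 (ht hf)
        refine ⟨Y g, ?_⟩
        simp only [mem_iInter]
        intro x hx
        obtain ⟨i, hi⟩ := hfs x hx
        apply subset_convexHull
        refine ⟨Finset.mem_image_of_mem _ hg, ?_⟩
        have := hgf i
        rwa [hi] at this
  obtain ⟨y, hy⟩ := hne
  refine ⟨y, fun x hx => ⟨{z | z ∈ t.image Y ∧ ClearlyVisible E x z}, ?_, fun z hz => hz.2, ?_⟩⟩
  · rintro z ⟨hz, _⟩
    obtain ⟨f, hf, rfl⟩ := Finset.mem_image.1 hz
    exact hYE f (htK f hf)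
  · exact mem_iInter.1 hy ⟨x, hx⟩

/-- **Main theorem.** For every `d`, a compact connected set in `ℝ^d` in which any `d + 1` points
of local non-convexity are clearly visible from a common point of the set is starshaped. -/
theorem result (d : ℕ) (E : Set (EuclideanSpace ℝ (Fin d))) (hE : IsCompact E)
    (hc : IsConnected E) (hC : PropertyC (d + 1) E) : Starshaped E := by
  obtain ⟨y, hyE, hy⟩ : ∃ y ∈ E, ∀ x, LNC E x → ∃ Z : Set (EuclideanSpace ℝ (Fin d)),
      (∀ z ∈ Z, ClearlyVisible E x z) ∧ y ∈ convexHull ℝ Z := by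
    by_cases hL : ∃ x, LNC E x
    · obtain ⟨x0, hx0⟩ := hL
      obtain ⟨y, hy⟩ := exists_common d hE hC
      have hy' : ∀ x, LNC E x → ∃ Z : Set (EuclideanSpace ℝ (Fin d)),
          (∀ z ∈ Z, ClearlyVisible E x z) ∧ y ∈ convexHull ℝ Z := by
        intro x hx
        obtain ⟨Z, _, h2, h3⟩ := hy x hx
        exact ⟨Z, h2, h3⟩
      refine ⟨y, mem_of_mem_hull hE hc ?_ hy', hy'⟩
      obtain ⟨Z, h1, _, h3⟩ := hy x0 hx0
      exact convexHull_mono h1 h3
    · push Not at hL
      obtain ⟨y, hy⟩ := hc.nonempty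
      exact ⟨y, hy, fun x hx => absurd hx (hL x)⟩
  refine ⟨y, hyE, sees_all hE.isClosed hc.isPreconnected hyE ?_⟩
  intro x hx
  obtain ⟨Z, hZ, hyZ⟩ := hy x hx
  exact exists_starAt hE.isClosed hZ hyZ

end Main

end Pool.Agent.Results.MP_ad2f8c_co.ClearVisibility
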